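import Pool.Agent.P.MP_3285df_ag.Generic

namespace Pool.Agent.Results.MP_3285df_ag.NotSemiEffective

open MvPolynomial

/-- For every `n > 0` and every field `k` there is an integer polynomial `Φ` in the affine
coordinates of ten points, nonzero over `k`, such that whenever `Φ` does not vanish at the
points `(a_i : b_i : 1)`, the only form of degree `111 n` with multiplicity at least `36 n` at the
first point and at least `35 n` at the other nine points is zero. -/
theorem result (k : Type*) [Field k] (n : ℕ) (hn : 0 < n) :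
    ∃ Φ : MvPolynomial (Fin 10 × Fin 2) ℤ, MvPolynomial.map (Int.castRingHom k) Φ ≠ 0 ∧
      ∀ p : Fin 10 × Fin 2 → k, MvPolynomial.aeval p Φ ≠ 0 →
        ∀ F : MvPolynomial (Fin 3) k, F.IsHomogeneous (111 * n) →
          (∀ i : Fin 10, F ∈ Ideal.span {X 0 - C (p (i, 0)) * X 2, X 1 - C (p (i, 1)) * X 2} ^
            (if i = 0 then 36 * n else 35 * n)) → F = 0 := by
  obtain ⟨Φ, h1, h2⟩ := Pool.Agent.P.MP_3285df_ag.general k n hn
  refine ⟨Φ, h1, fun p hp F hF hm => h2 p hp F hF fun i => ?_⟩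
  have h3 := Ideal.mem_map_of_mem
    (Pool.Agent.P.MP_3285df_ag.shiftP ![p (i, 0), p (i, 1), 1]) (hm i)
  rw [Ideal.map_pow] at h3
  refine Ideal.pow_right_mono ?_ _ h3
  have hX : ∀ l, X l ∈ idealOfVars (Fin 3) k := fun l => Ideal.subset_span ⟨l, rfl⟩
  rw [Ideal.map_span, Ideal.span_le, Set.image_pair]
  rintro _ (rfl | rfl)
  · have : Pool.Agent.P.MP_3285df_ag.shiftP ![p (i, 0), p (i, 1), 1] (X 0 - C (p (i, 0)) * X 2)
        = X 0 - C (p (i, 0)) * X 2 := by
      simp [Pool.Agent.P.MP_3285df_ag.shiftP]; ring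
    rw [this]
    exact Ideal.sub_mem _ (hX 0) (Ideal.mul_mem_left _ _ (hX 2))
  · have : Pool.Agent.P.MP_3285df_ag.shiftP ![p (i, 0), p (i, 1), 1] (X 1 - C (p (i, 1)) * X 2)
        = X 1 - C (p (i, 1)) * X 2 := by
      simp [Pool.Agent.P.MP_3285df_ag.shiftP]; ring
    rw [this]
    exact Ideal.sub_mem _ (hX 1) (Ideal.mul_mem_left _ _ (hX 2))

end Pool.Agent.Results.MP_3285df_ag.NotSemiEffective
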